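import Pool.Agent.helper80.HF.SpecG

/-!
# MP_07c750, project HALF, row GCL: the number of cells
-/

set_option autoImplicit false

open scoped MatrixGroups ContDiff Topology UpperHalfPlane ComplexConjugate
open UpperHalfPlane MeasureTheory Filter Set

namespace Pool.Agent.HF

open Pool.Agent.RS
open Pool.Agent.MS (bq)

theorem GCL_proof (h1 : GUB_stmt) (h2 : GCN_stmt) : GCL_stmt := by
  classical
  intro Γ hΓ
  obtain ⟨a0, C1, ha0, ha1, hU⟩ := h1 Γ hΓ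
  refine ⟨a0, 6 * C1, ha0, ha1, ?_⟩
  intro b n N A g T hb hba hN hT
  have hS : ∀ y : SL(2, ℝ), ∃ S : Finset ℝ, S.card ≤ C1 ∧ ∀ u : ℝ, 0 ≤ u → u ≤ 1 →
      (∃ γ : Γ, bq b b (b * Real.exp (-(n : ℝ))) (y⁻¹ * (γ : SL(2, ℝ)) * (g * lM u))) →
        ∃ s ∈ S, s ≤ u ∧ u ≤ s + Real.exp (-(n : ℝ)) := fun y =>
    hU b n y g hb hba (Nat.cast_nonneg n)
  choose S hS1 hS2 using hS
  have hM : 0 < 2 ^ N := by positivity
  have hexp : Real.exp (-(n : ℝ)) ≤ 3 / ((2 ^ N : ℕ) : ℝ) := by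
    push_cast
    rw [Real.exp_neg, le_div_iff₀ (by positivity), inv_mul_le_iff₀ (Real.exp_pos _)]
    have := Real.exp_pos (n : ℝ)
    linarith
  have hT2 := h2 (A.biUnion S) (2 ^ N) T hM (fun k hk => by
    obtain ⟨v, hv0, hv1, hv2, hv3, hv4⟩ := hT k hk
    obtain ⟨y, hy, hγ⟩ := hv4
    obtain ⟨s, hs, hs1, hs2⟩ := hS2 y v hv0 hv1 hγ
    refine ⟨v, by push_cast; exact hv2, by push_cast; exact hv3, s, Finset.mem_biUnion.2 ⟨y, hy, hs⟩, hs1, ?_⟩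
    linarith)
  have hc : (A.biUnion S).card ≤ A.card * C1 :=
    Finset.card_biUnion_le_card_mul _ _ _ (fun y _ => hS1 y)
  calc T.card ≤ 6 * (A.biUnion S).card := hT2
    _ ≤ 6 * (A.card * C1) := Nat.mul_le_mul_left _ hc
    _ = 6 * C1 * A.card := by ring

end Pool.Agent.HF
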